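import Pool.Agent.Helper17.QP.A

/-!
# QP: the local inequalities for rank 6, 5 and 3
-/

set_option autoImplicit false

namespace Pool.Agent.QP

open Module

section

variable {K : Type*} [Field K] {q : ℕ} {l : Fin q → Fin 3 → K}
variable {Q : Type*} [AddCommGroup Q] [Module K Q] {Φ : (Fin 6 → K) →ₗ[K] Q}

theorem Tot_eq {s : Q → ℝ} {a b : Fin q → ℝ} (hp : Plc Φ l s a b) (J : Finset (Fin q))
    (hJ : ∀ k, k ∉ J → a k = 0 ∧ b k = 0) : Tot Φ l s = ∑ k ∈ J, s (E Φ l k) := by
  unfold Tot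
  refine (Finset.sum_subset (Finset.subset_univ J) fun k _ hk => ?_).symm
  rw [hp.sq, (hJ k hk).1, (hJ k hk).2, add_zero]

theorem Tot4 {s : Q → ℝ} {a b : Fin q → ℝ} (hp : Plc Φ l s a b) {i j i' j' : Fin q} (hn : [i, j, i', j'].Nodup)
    (ha : ∀ k, k ≠ i → k ≠ j → a k = 0) (hb : ∀ k, k ≠ i' → k ≠ j' → b k = 0) :
    Tot Φ l s = s (E Φ l i) + s (E Φ l j) + s (E Φ l i') + s (E Φ l j') := by
  rw [Tot_eq hp {i, j, i', j'} fun k hk => by
    simp only [Finset.mem_insert, Finset.mem_singleton, not_or] at hk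
    exact ⟨ha k hk.1 hk.2.1, hb k hk.2.2.1 hk.2.2.2⟩]
  simp only [List.nodup_cons, List.mem_cons, List.not_mem_nil, or_false, not_or] at hn
  rw [Finset.sum_insert, Finset.sum_insert, Finset.sum_insert, Finset.sum_singleton]
  · ring
  · simp [hn.2.2.1]
  · simp [hn.2.1]
  · simp [hn.1]

theorem Tot3 {s : Q → ℝ} {a b : Fin q → ℝ} (hp : Plc Φ l s a b) {i j k : Fin q} (hn : [i, j, k].Nodup)
    (ha : ∀ k', k' ≠ i → k' ≠ j → a k' = 0) (hb : ∀ k', k' ≠ i → k' ≠ k → b k' = 0) :
    Tot Φ l s = s (E Φ l i) + s (E Φ l j) + s (E Φ l k) := by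
  rw [Tot_eq hp {i, j, k} fun k' hk => by
    simp only [Finset.mem_insert, Finset.mem_singleton, not_or] at hk
    exact ⟨ha k' hk.1 hk.2.1, hb k' hk.1 hk.2.2⟩]
  simp only [List.nodup_cons, List.mem_cons, List.not_mem_nil, or_false, not_or] at hn
  rw [Finset.sum_insert, Finset.sum_insert, Finset.sum_singleton]
  · ring
  · simp [hn.2.1]
  · simp [hn.1]

theorem Tot2 {s : Q → ℝ} {a b : Fin q → ℝ} (hp : Plc Φ l s a b) {i j : Fin q} (hn : i ≠ j)
    (ha : ∀ k', k' ≠ i → k' ≠ j → a k' = 0) (hb : ∀ k', k' ≠ i → k' ≠ j → b k' = 0) :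
    Tot Φ l s = s (E Φ l i) + s (E Φ l j) := by
  rw [Tot_eq hp {i, j} fun k' hk => by
    simp only [Finset.mem_insert, Finset.mem_singleton, not_or] at hk
    exact ⟨ha k' hk.1 hk.2, hb k' hk.1 hk.2⟩]
  rw [Finset.sum_insert, Finset.sum_singleton]
  simp [hn]

theorem Ind.mono {s : Q → ℝ} {r r' : ℝ} (h : Ind K s r) (h' : r' ≤ r) : Ind K s r' := by
  obtain ⟨n, w, hw, hr⟩ := h
  exact ⟨n, w, hw, h'.trans hr⟩

/-- the relations of an independent family, if there is one relation -/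
theorem drop5 (hΦ : Function.Surjective Φ) (hd : finrank K Q = 5) {n : ℕ} (w : Fin n → Fin 6 → K)
    (hw : LinearIndependent K w) (g c : Fin n → K) (hg : ∑ k, g k • Φ (w k) = 0) (hc : ∑ k, c k • Φ (w k) = 0)
    (k₀ : Fin n) (h0 : g k₀ ≠ 0) (h1 : c k₀ = 0) : ∀ k, c k = 0 := by
  have hker : finrank K (LinearMap.ker Φ) = 1 := by
    have h2 := Φ.finrank_range_add_finrank_ker
    rw [LinearMap.range_eq_top.2 hΦ, finrank_top, hd, finrank_fin_fun] at h2
    omega
  have hG : ∑ k, g k • w k ∈ LinearMap.ker Φ := by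
    rw [LinearMap.mem_ker, map_sum]
    simpa using hg
  have hC : ∑ k, c k • w k ∈ LinearMap.ker Φ := by
    rw [LinearMap.mem_ker, map_sum]
    simpa using hc
  have hG0 : (⟨∑ k, g k • w k, hG⟩ : LinearMap.ker Φ) ≠ 0 := by
    intro h2
    have h3 : ∑ k, g k • w k = 0 := congrArg Subtype.val h2
    exact h0 (Fintype.linearIndependent_iff.1 hw g h3 k₀)
  obtain ⟨t, ht⟩ := (finrank_eq_one_iff_of_nonzero' _ hG0).1 hker ⟨_, hC⟩
  have h2 : t • ∑ k, g k • w k = ∑ k, c k • w k := congrArg Subtype.val ht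
  have h3 : ∑ k, (t * g k - c k) • w k = 0 := by
    simp only [sub_smul, Finset.sum_sub_distrib, mul_smul, ← Finset.smul_sum]
    rw [h2, sub_self]
  have h4 := Fintype.linearIndependent_iff.1 hw _ h3
  have h5 : t = 0 := by
    have := h4 k₀
    rw [h1, sub_zero] at this
    exact (mul_eq_zero.1 this).resolve_right h0
  intro k
  have := h4 k
  rw [h5, zero_mul, zero_sub, neg_eq_zero] at this
  exact this

theorem inj6 (hΦ : Function.Surjective Φ) (hd : finrank K Q = 6) {n : ℕ} (w : Fin n → Fin 6 → K)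
    (hw : LinearIndependent K w) (c : Fin n → K) (hc : ∑ k, c k • Φ (w k) = 0) : ∀ k, c k = 0 := by
  have hker : finrank K (LinearMap.ker Φ) = 0 := by
    have h2 := Φ.finrank_range_add_finrank_ker
    rw [LinearMap.range_eq_top.2 hΦ, finrank_top, hd, finrank_fin_fun] at h2
    omega
  have hC : ∑ k, c k • w k ∈ LinearMap.ker Φ := by
    rw [LinearMap.mem_ker, map_sum]
    simpa using hc
  rw [Submodule.finrank_eq_zero.1 hker, Submodule.mem_bot] at hC
  exact Fintype.linearIndependent_iff.1 hw c hC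

theorem li2 {x y : Q} (h : ∀ c d : K, c • x + d • y = 0 → c = 0 ∧ d = 0) : LinearIndependent K ![x, y] := by
  rw [Fintype.linearIndependent_iff]
  intro c hc
  simp only [Fin.sum_univ_two, Matrix.cons_val_zero, Matrix.cons_val_one] at hc
  have h1 := h _ _ hc
  intro k
  fin_cases k
  · exact h1.1
  · exact h1.2

theorem li3 {x y z : Q} (h : ∀ c d e : K, c • x + d • y + e • z = 0 → c = 0 ∧ d = 0 ∧ e = 0) :
    LinearIndependent K ![x, y, z] := by
  rw [Fintype.linearIndependent_iff]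
  intro c hc
  have h1 := h (c 0) (c 1) (c 2) (by simpa [Fin.sum_univ_three] using hc)
  intro k
  fin_cases k
  · exact h1.1
  · exact h1.2.1
  · exact h1.2.2

theorem li4 {x y z t : Q} (h : ∀ c d e f : K, c • x + d • y + e • z + f • t = 0 → c = 0 ∧ d = 0 ∧ e = 0 ∧ f = 0) :
    LinearIndependent K ![x, y, z, t] := by
  rw [Fintype.linearIndependent_iff]
  intro c hc
  have h1 := h (c 0) (c 1) (c 2) (c 3) (by simpa [Fin.sum_univ_four] using hc)
  intro k
  fin_cases k
  · exact h1.1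
  · exact h1.2.1
  · exact h1.2.2.1
  · exact h1.2.2.2

theorem ind2 {s : Q → ℝ} {r : ℝ} {x y : Q} (h : ∀ c d : K, c • x + d • y = 0 → c = 0 ∧ d = 0) (hr : r ≤ s x + s y) :
    Ind K s r := ⟨2, ![x, y], li2 h, by simpa [Fin.sum_univ_two] using hr⟩

theorem ind3 {s : Q → ℝ} {r : ℝ} {x y z : Q} (h : ∀ c d e : K, c • x + d • y + e • z = 0 → c = 0 ∧ d = 0 ∧ e = 0)
    (hr : r ≤ s x + s y + s z) : Ind K s r := ⟨3, ![x, y, z], li3 h, by simpa [Fin.sum_univ_three] using hr⟩

theorem ind4 {s : Q → ℝ} {r : ℝ} {x y z t : Q}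
    (h : ∀ c d e f : K, c • x + d • y + e • z + f • t = 0 → c = 0 ∧ d = 0 ∧ e = 0 ∧ f = 0)
    (hr : r ≤ s x + s y + s z + s t) : Ind K s r := ⟨4, ![x, y, z, t], li4 h, by simpa [Fin.sum_univ_four] using hr⟩

theorem sum5 (w : Fin 5 → Fin 6 → K) (c : Fin 5 → K) :
    ∑ k, c k • Φ (w k) = c 0 • Φ (w 0) + c 1 • Φ (w 1) + c 2 • Φ (w 2) + c 3 • Φ (w 3) + c 4 • Φ (w 4) := by
  rw [Fin.sum_univ_five]

end

section

variable {K : Type*} [Field K] [CharZero K] {q : ℕ} {l : Fin q → Fin 3 → K}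
variable {Q : Type*} [AddCommGroup Q] [Module K Q] {Φ : (Fin 6 → K) →ₗ[K] Q}

theorem exists_third (hq : 4 ≤ q) (i j : Fin q) : ∃ k : Fin q, i ≠ k ∧ j ≠ k := by
  by_contra h
  push Not at h
  have h1 : (Finset.univ : Finset (Fin q)) ⊆ {i, j} := by
    intro k _
    rw [Finset.mem_insert, Finset.mem_singleton]
    by_cases hk : i = k
    · exact Or.inl hk.symm
    · exact Or.inr (h k hk).symm
  have h2 := Finset.card_le_card h1
  rw [Finset.card_univ, Fintype.card_fin] at h2
  have h3 := Finset.card_le_two (a := i) (b := j)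
  omega

theorem loc6 (hΦ : Function.Surjective Φ) (hl : GP l) (hq : 4 ≤ q) (_hE : ∀ i, E Φ l i ≠ 0) (hd : finrank K Q = 6)
    (s : Q → ℝ) (a b : Fin q → ℝ) (hp : Plc Φ l s a b) : Ind K s (Tot Φ l s) := by
  rcases types l Φ s a b hp hq with ⟨i, j, i', j', hn, ha, hb, -, -⟩ | ⟨i, j, k, hn, ha, hb⟩ | ⟨i, j, hn, ha, hb⟩
  · rw [Tot4 hp hn ha hb]
    simp only [List.nodup_cons, List.mem_cons, List.not_mem_nil, or_false, not_or] at hn
    obtain ⟨⟨h1, h2, h3⟩, ⟨h4, h5⟩, h6, -⟩ := hn
    obtain ⟨m, hm, hm1, hm2⟩ := exists_m l hl i j i' j' h1 h2 h3 h4 h5 h6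
    have hw := indep4m l hl i j i' j' h1 h2 h3 h4 h5 h6 m hm hm1 hm2
    refine ind4 (fun c d e f h => ?_) le_rfl
    have h7 := inj6 hΦ hd _ hw ![c, d, e, f, 0] (by
      rw [sum5]
      simpa [E] using h)
    exact ⟨h7 0, h7 1, h7 2, h7 3⟩
  · rw [Tot3 hp hn ha hb]
    simp only [List.nodup_cons, List.mem_cons, List.not_mem_nil, or_false, not_or] at hn
    obtain ⟨⟨h1, h2⟩, h3, -⟩ := hn
    have hw := indep3n l hl i j k h1 h2 h3
    refine ind3 (fun c d e h => ?_) le_rfl
    have h7 := inj6 hΦ hd _ hw ![c, d, e, 0, 0] (by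
      rw [sum5]
      simpa [E] using h)
    exact ⟨h7 0, h7 1, h7 2⟩
  · rw [Tot2 hp hn ha hb]
    obtain ⟨k, h2, h3⟩ := exists_third hq i j
    have hw := indep3n l hl i j k hn h2 h3
    refine ind2 (fun c d h => ?_) le_rfl
    have h7 := inj6 hΦ hd _ hw ![c, d, 0, 0, 0] (by
      rw [sum5]
      simpa [E] using h)
    exact ⟨h7 0, h7 1⟩

/-- In rank 5 the proportional pairs have one common class. -/
theorem pair5 (hΦ : Function.Surjective Φ) (hl : GP l) (hE : ∀ i, E Φ l i ≠ 0) (hd : finrank K Q = 5)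
    {i j k k' : Fin q} (hij : i ≠ j) (hr : Rel Φ l i j) (hkk : k ≠ k') (hr' : Rel Φ l k k') :
    ∃ c : K, c ≠ 0 ∧ E Φ l k = c • E Φ l i := by
  obtain ⟨c, hc⟩ := hr
  obtain ⟨c', hc'⟩ := hr'
  have hc0 : c ≠ 0 := by
    rintro rfl
    rw [zero_smul] at hc
    exact hE i hc
  by_cases hki : k = i
  · exact ⟨1, one_ne_zero, by rw [hki, one_smul]⟩
  by_cases hkj : k = j
  · exact ⟨c⁻¹, inv_ne_zero hc0, by rw [hkj, hc, smul_smul, inv_mul_cancel₀ hc0, one_smul]⟩
  exfalso
  by_cases h1 : k' = i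
  · subst h1
    have hw := indep3n l hl k' j k hij (Ne.symm hki) (Ne.symm hkj)
    have h2 := drop5 hΦ hd _ hw ![1, -c, 0, 0, 0] ![-c', 0, 1, 0, 0]
      (by rw [sum5]; simp only [E] at hc; simp [hc])
      (by rw [sum5]; simp only [E] at hc'; simp [hc']) 1 (by simpa using hc0) rfl 2
    simp at h2
  by_cases h2 : k' = j
  · subst h2
    have hw := indep3n l hl i k' k hij (Ne.symm hki) (Ne.symm hkj)
    have h2 := drop5 hΦ hd _ hw ![1, -c, 0, 0, 0] ![0, -c', 1, 0, 0]
      (by rw [sum5]; simp only [E] at hc; simp [hc])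
      (by rw [sum5]; simp only [E] at hc'; simp [hc']) 0 (by simp) rfl 2
    simp at h2
  obtain ⟨m, hm, hm1, hm2⟩ := exists_m l hl i j k k' hij (Ne.symm hki) (Ne.symm h1) (Ne.symm hkj) (Ne.symm h2) hkk
  have hw := indep4m l hl i j k k' hij (Ne.symm hki) (Ne.symm h1) (Ne.symm hkj) (Ne.symm h2) hkk m hm hm1 hm2
  have h3 := drop5 hΦ hd _ hw ![1, -c, 0, 0, 0] ![0, 0, 1, -c', 0]
    (by rw [sum5]; simp only [E] at hc; simp [hc])
    (by rw [sum5]; simp only [E] at hc'; simp [hc']) 0 (by simp) rfl 2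
  simp at h3

omit [CharZero K] in
theorem rel_of {i j : Fin q} {x y : K} (hE : ∀ i, E Φ l i ≠ 0) (h : x • E Φ l i + y • E Φ l j = 0) (h0 : x ≠ 0 ∨ y ≠ 0) :
    Rel Φ l i j ∧ x ≠ 0 ∧ y ≠ 0 := by
  have hx : x ≠ 0 := by
    rintro rfl
    rw [zero_smul, zero_add, smul_eq_zero] at h
    rcases h with h | h
    · exact h0.elim (fun h' => h' rfl) fun h' => h' h
    · exact hE _ h
  have hy : y ≠ 0 := by
    rintro rfl
    rw [zero_smul, add_zero, smul_eq_zero] at h
    rcases h with h | h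
    · exact hx h
    · exact hE _ h
  refine ⟨⟨-(x⁻¹ * y), ?_⟩, hx, hy⟩
  have h1 : x • E Φ l i = -(y • E Φ l j) := eq_neg_of_add_eq_zero_left h
  calc E Φ l i = x⁻¹ • (x • E Φ l i) := by rw [smul_smul, inv_mul_cancel₀ hx, one_smul]
    _ = _ := by rw [h1, smul_neg, smul_smul, neg_smul]

theorem loc5 (hΦ : Function.Surjective Φ) (hl : GP l) (hq : 4 ≤ q) (hE : ∀ i, E Φ l i ≠ 0) (hd : finrank K Q = 5) :
    ∃ e : Q, e ≠ 0 ∧ ∀ (s : Q → ℝ) (a b : Fin q → ℝ), Plc Φ l s a b → Ind K s (Tot Φ l s - s e) := by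
  obtain ⟨e, he, hkey⟩ : ∃ e : Q, e ≠ 0 ∧ ∀ k k', k ≠ k' → Rel Φ l k k' → ∃ c : K, c ≠ 0 ∧ E Φ l k = c • e := by
    by_cases h : ∃ i j, i ≠ j ∧ Rel Φ l i j
    · obtain ⟨i, j, hij, hr⟩ := h
      exact ⟨E Φ l i, hE i, fun k k' hk hr' => pair5 hΦ hl hE hd hij hr hk hr'⟩
    · exact ⟨E Φ l ⟨0, by omega⟩, hE _, fun k k' hk hr' => (h ⟨k, k', hk, hr'⟩).elim⟩
  refine ⟨e, he, fun s a b hp => ?_⟩
  have hse : 0 ≤ s e := hp.nonneg e he
  have hs : ∀ k k', k ≠ k' → Rel Φ l k k' → s (E Φ l k) = s e := by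
    intro k k' hk hr
    obtain ⟨c, hc, h⟩ := hkey k k' hk hr
    rw [h, hp.smul c e hc he]
  have hsE : ∀ k, 0 ≤ s (E Φ l k) := fun k => hp.nonneg _ (hE k)
  rcases types l Φ s a b hp hq with ⟨i, j, i', j', hn, ha, hb, haa, hbb⟩ | ⟨i, j, k, hn, ha, hb⟩ | ⟨i, j, hn, ha, hb⟩
  · rw [Tot4 hp hn ha hb]
    simp only [List.nodup_cons, List.mem_cons, List.not_mem_nil, or_false, not_or] at hn
    obtain ⟨⟨h1, h2, h3⟩, ⟨h4, h5⟩, h6, -⟩ := hn
    obtain ⟨m, hm, hm1, hm2⟩ := exists_m l hl i j i' j' h1 h2 h3 h4 h5 h6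
    have hw := indep4m l hl i j i' j' h1 h2 h3 h4 h5 h6 m hm hm1 hm2
    -- the size of `M`
    have hM : Φ (sy m m) ≠ 0 → s (E Φ l i) ≤ s (Φ (sy m m)) ∧ s (E Φ l i') ≤ s (Φ (sy m m)) := by
      intro h0
      have h7 := hp.nod m i j i' j' hm1 hm2 h0
      rw [min_eq_left haa, min_eq_left hbb] at h7
      rw [hp.sq, hp.sq, hb i h2 h3, ha i' (Ne.symm h2) (Ne.symm h4)]
      have := hp.a0 i
      have := hp.b0 i'
      constructor <;> linarith
    by_cases hg : ∃ g : Fin 5 → K, (∃ k, g k ≠ 0) ∧ ∑ k, g k • Φ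
        ((![sy (l i) (l i), sy (l j) (l j), sy (l i') (l i'), sy (l j') (l j'), sy m m] : Fin 5 → Fin 6 → K) k) = 0
    · obtain ⟨g, ⟨k, hk⟩, hg⟩ := hg
      by_cases g4 : g 4 = 0
      swap
      · refine (ind4 (x := E Φ l i) (y := E Φ l j) (z := E Φ l i') (t := E Φ l j') (fun c d e f h => ?_) le_rfl).mono
          (by linarith)
        have h7 := drop5 hΦ hd _ hw g ![c, d, e, f, 0] hg (by
          rw [sum5]
          simpa [E] using h) 4 g4 rfl
        exact ⟨h7 0, h7 1, h7 2, h7 3⟩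
      by_cases g0 : g 0 = 0
      swap
      · have hLI : ∀ c d e f : K, c • E Φ l j + d • E Φ l i' + e • E Φ l j' + f • Φ (sy m m) = 0 →
            c = 0 ∧ d = 0 ∧ e = 0 ∧ f = 0 := by
          intro c d e f h
          have h7 := drop5 hΦ hd _ hw g ![0, c, d, e, f] hg (by
            rw [sum5]
            simpa [E] using h) 0 g0 rfl
          exact ⟨h7 1, h7 2, h7 3, h7 4⟩
        have hM0 : Φ (sy m m) ≠ 0 := fun h0 => by
          have := (hLI 0 0 0 1 (by simp [h0])).2.2.2
          exact one_ne_zero this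
        exact ind4 hLI (by linarith [(hM hM0).1])
      by_cases g2 : g 2 = 0
      swap
      · have hLI : ∀ c d e f : K, c • E Φ l i + d • E Φ l j + e • E Φ l j' + f • Φ (sy m m) = 0 →
            c = 0 ∧ d = 0 ∧ e = 0 ∧ f = 0 := by
          intro c d e f h
          have h7 := drop5 hΦ hd _ hw g ![c, d, 0, e, f] hg (by
            rw [sum5]
            simpa [E] using h) 2 g2 rfl
          exact ⟨h7 0, h7 1, h7 3, h7 4⟩
        have hM0 : Φ (sy m m) ≠ 0 := fun h0 => by
          have := (hLI 0 0 0 1 (by simp [h0])).2.2.2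
          exact one_ne_zero this
        exact ind4 hLI (by linarith [(hM hM0).2])
      have h7 : g 1 • E Φ l j + g 3 • E Φ l j' = 0 := by
        rw [sum5, g0, g2, g4] at hg
        simpa [E] using hg
      have h8 : g 1 ≠ 0 ∨ g 3 ≠ 0 := by
        by_contra h8
        push Not at h8
        apply hk
        fin_cases k
        · exact g0
        · exact h8.1
        · exact g2
        · exact h8.2
        · exact g4
      obtain ⟨hr, g1, g3⟩ := rel_of hE h7 h8
      have h9 := hs j j' h5 hr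
      refine ind3 (x := E Φ l i) (y := E Φ l i') (z := E Φ l j') (fun c d e h => ?_) (by linarith)
      have h10 := drop5 hΦ hd _ hw g ![c, 0, d, e, 0] hg (by
        rw [sum5]
        simpa [E] using h) 1 g1 rfl
      exact ⟨h10 0, h10 2, h10 3⟩
    · refine (ind4 (x := E Φ l i) (y := E Φ l j) (z := E Φ l i') (t := E Φ l j') (fun c d e f h => ?_) le_rfl).mono
          (by linarith)
      by_contra h7
      refine hg ⟨![c, d, e, f, 0], ?_, ?_⟩
      · by_contra h8
        push Not at h8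
        exact h7 ⟨h8 0, h8 1, h8 2, h8 3⟩
      · rw [sum5]
        simpa [E] using h
  · rw [Tot3 hp hn ha hb]
    simp only [List.nodup_cons, List.mem_cons, List.not_mem_nil, or_false, not_or] at hn
    obtain ⟨⟨h1, h2⟩, h3, -⟩ := hn
    have hw := indep3n l hl i j k h1 h2 h3
    by_cases hg : ∃ g : Fin 5 → K, (∃ k, g k ≠ 0) ∧ ∑ k', g k' • Φ
        ((![sy (l i) (l i), sy (l j) (l j), sy (l k) (l k), sy (l i) (l j), sy (l i) (l k)] : Fin 5 → Fin 6 → K) k') = 0
    · obtain ⟨g, ⟨k', hk⟩, hg⟩ := hg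
      by_cases g3 : g 3 = 0
      swap
      · refine (ind3 (x := E Φ l i) (y := E Φ l j) (z := E Φ l k) (fun c d e h => ?_) le_rfl).mono (by linarith)
        have h7 := drop5 hΦ hd _ hw g ![c, d, e, 0, 0] hg (by
          rw [sum5]
          simpa [E] using h) 3 g3 rfl
        exact ⟨h7 0, h7 1, h7 2⟩
      by_cases g4 : g 4 = 0
      swap
      · refine (ind3 (x := E Φ l i) (y := E Φ l j) (z := E Φ l k) (fun c d e h => ?_) le_rfl).mono (by linarith)
        have h7 := drop5 hΦ hd _ hw g ![c, d, e, 0, 0] hg (by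
          rw [sum5]
          simpa [E] using h) 4 g4 rfl
        exact ⟨h7 0, h7 1, h7 2⟩
      have hrel : g 0 • E Φ l i + g 1 • E Φ l j + g 2 • E Φ l k = 0 := by
        rw [sum5, g3, g4] at hg
        simpa [E] using hg
      have hne : g 0 ≠ 0 ∨ g 1 ≠ 0 ∨ g 2 ≠ 0 := by
        by_contra h8
        push Not at h8
        apply hk
        fin_cases k'
        · exact h8.1
        · exact h8.2.1
        · exact h8.2.2
        · exact g3
        · exact g4
      by_cases g0 : g 0 = 0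
      · rw [g0, zero_smul, zero_add] at hrel
        obtain ⟨hr, g1, g2⟩ := rel_of hE hrel (hne.resolve_left fun h => h g0)
        have h9 := hs j k h3 hr
        refine ind2 (x := E Φ l i) (y := E Φ l k) (fun c d h => ?_) (by linarith)
        have h10 := drop5 hΦ hd _ hw g ![c, 0, d, 0, 0] hg (by
          rw [sum5]
          simpa [E] using h) 1 g1 rfl
        exact ⟨h10 0, h10 2⟩
      by_cases g1 : g 1 = 0
      · rw [g1, zero_smul, add_zero] at hrel
        obtain ⟨hr, -, g2⟩ := rel_of hE hrel (Or.inl g0)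
        have h9 := hs i k h2 hr
        refine ind2 (x := E Φ l j) (y := E Φ l k) (fun c d h => ?_) (by linarith)
        have h10 := drop5 hΦ hd _ hw g ![0, c, d, 0, 0] hg (by
          rw [sum5]
          simpa [E] using h) 0 g0 rfl
        exact ⟨h10 1, h10 2⟩
      by_cases g2 : g 2 = 0
      · rw [g2, zero_smul, add_zero] at hrel
        obtain ⟨hr, -, -⟩ := rel_of hE hrel (Or.inl g0)
        have h9 := hs i j h1 hr
        refine ind2 (x := E Φ l j) (y := E Φ l k) (fun c d h => ?_) (by linarith)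
        have h10 := drop5 hΦ hd _ hw g ![0, c, d, 0, 0] hg (by
          rw [sum5]
          simpa [E] using h) 0 g0 rfl
        exact ⟨h10 1, h10 2⟩
      -- all three coefficients are nonzero
      have hL0 : ∀ c d e f : K, c • E Φ l j + d • E Φ l k + e • B Φ l i j + f • B Φ l i k = 0 →
          c = 0 ∧ d = 0 ∧ e = 0 ∧ f = 0 := by
        intro c d e f h
        have h7 := drop5 hΦ hd _ hw g ![0, c, d, e, f] hg (by
          rw [sum5]
          simpa [E, B] using h) 0 g0 rfl
        exact ⟨h7 1, h7 2, h7 3, h7 4⟩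
      have hL1 : ∀ c d e f : K, c • E Φ l i + d • E Φ l k + e • B Φ l i j + f • B Φ l i k = 0 →
          c = 0 ∧ d = 0 ∧ e = 0 ∧ f = 0 := by
        intro c d e f h
        have h7 := drop5 hΦ hd _ hw g ![c, 0, d, e, f] hg (by
          rw [sum5]
          simpa [E, B] using h) 1 g1 rfl
        exact ⟨h7 0, h7 2, h7 3, h7 4⟩
      have hL2 : ∀ c d e f : K, c • E Φ l i + d • E Φ l j + e • B Φ l i j + f • B Φ l i k = 0 →
          c = 0 ∧ d = 0 ∧ e = 0 ∧ f = 0 := by
        intro c d e f h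
        have h7 := drop5 hΦ hd _ hw g ![c, d, 0, e, f] hg (by
          rw [sum5]
          simpa [E, B] using h) 2 g2 rfl
        exact ⟨h7 0, h7 1, h7 3, h7 4⟩
      have hN2 : B Φ l i j ≠ 0 := fun h0 => one_ne_zero (hL0 0 0 1 0 (by simp [h0])).2.2.1
      have hN3 : B Φ l i k ≠ 0 := fun h0 => one_ne_zero (hL0 0 0 0 1 (by simp [h0])).2.2.2
      have hs2 := hp.mul i j h1 hN2
      have hs3 := hp.mul i k h2 hN3
      rw [hb j (Ne.symm h1) h3, add_zero] at hs2
      rw [ha k (Ne.symm h2) (Ne.symm h3), zero_add] at hs3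
      have e1 := hp.sq i
      have e2 := hp.sq j
      have e3 := hp.sq k
      rw [hb j (Ne.symm h1) h3, add_zero] at e2
      rw [ha k (Ne.symm h2) (Ne.symm h3), zero_add] at e3
      have := hp.a0 i
      have := hp.a0 j
      have := hp.b0 i
      have := hp.b0 k
      have hn2 := hp.nonneg _ hN2
      have hn3 := hp.nonneg _ hN3
      rcases le_total (a j + b i) (a i) with hA | hA
      · rw [min_eq_right hA] at hs2
        exact ind4 hL1 (by linarith)
      rw [min_eq_left hA] at hs2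
      rcases le_total (a i + b k) (b i) with hB | hB
      · rw [min_eq_left hB] at hs3
        exact ind4 hL2 (by linarith)
      · rw [min_eq_right hB] at hs3
        exact ind4 hL0 (by linarith)
    · refine (ind3 (x := E Φ l i) (y := E Φ l j) (z := E Φ l k) (fun c d e h => ?_) le_rfl).mono (by linarith)
      by_contra h7
      refine hg ⟨![c, d, e, 0, 0], ?_, ?_⟩
      · by_contra h8
        push Not at h8
        exact h7 ⟨h8 0, h8 1, h8 2⟩
      · rw [sum5]
        simpa [E] using h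
  · rw [Tot2 hp hn ha hb]
    by_cases hr : Rel Φ l i j
    · have h9 := hs i j hn hr
      refine ⟨1, ![E Φ l j], ?_, ?_⟩
      · rw [Fintype.linearIndependent_iff]
        intro c hc k
        fin_cases k
        have h10 : c 0 • E Φ l j = 0 := by simpa using hc
        exact (smul_eq_zero.1 h10).resolve_right (hE j)
      · have : s (E Φ l i) + s (E Φ l j) - s e ≤ s (E Φ l j) := by linarith
        simpa using this
    · refine (ind2 (x := E Φ l i) (y := E Φ l j) (fun c d h => ?_) le_rfl).mono (by linarith)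
      by_contra h7
      refine hr (rel_of hE h ?_).1
      by_contra h8
      push Not at h8
      exact h7 h8

omit [CharZero K] in
theorem loc3 (_hl : GP l) (hq : 4 ≤ q) (hE : ∀ i, E Φ l i ≠ 0)
    (h : ∀ i j, i ≠ j → 2 ≤ finrank K (Submodule.span K {E Φ l i, B Φ l i j, E Φ l j}))
    (s : Q → ℝ) (a b : Fin q → ℝ) (hp : Plc Φ l s a b) : Ind K s (Tot Φ l s / 2) := by
  -- one point at a time
  have key : ∀ (i j : Fin q) (α β : ℝ), i ≠ j → α ≤ s (E Φ l i) → β ≤ s (E Φ l j) →
      (B Φ l i j ≠ 0 → min α β ≤ s (B Φ l i j)) → Ind K s (α + β) := by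
    intro i j α β hij hα hβ hB
    wlog hαβ : α ≤ β generalizing i j α β
    · have h1 := this j i β α hij.symm hβ hα (by
        intro h0
        have h2 : B Φ l j i = B Φ l i j := by
          unfold B
          congr 1
          simp only [sy]
          funext x
          fin_cases x <;> simp <;> ring
        rw [h2] at h0 ⊢
        rw [min_comm]
        exact hB h0) (le_of_not_ge hαβ)
      rwa [add_comm] at h1
    rw [min_eq_left hαβ] at hB
    by_cases h1 : E Φ l i ∈ Submodule.span K {E Φ l j}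
    · by_cases h2 : B Φ l i j ∈ Submodule.span K {E Φ l j}
      · exfalso
        have h3 : Submodule.span K {E Φ l i, B Φ l i j, E Φ l j} ≤ Submodule.span K {E Φ l j} := by
          rw [Submodule.span_le]
          rintro x (rfl | rfl | rfl)
          · exact h1
          · exact h2
          · exact Submodule.mem_span_singleton_self _
        have h4 := Submodule.finrank_mono h3
        rw [finrank_span_singleton (hE j)] at h4
        have := h i j hij
        omega
      · have h0 : B Φ l i j ≠ 0 := fun h0 => h2 (by rw [h0]; exact Submodule.zero_mem _)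
        refine ind2 (x := B Φ l i j) (y := E Φ l j) (fun c d h5 => ?_) (by linarith [hB h0])
        have hc : c = 0 := by
          by_contra hc
          apply h2
          rw [Submodule.mem_span_singleton]
          refine ⟨-(c⁻¹ * d), ?_⟩
          have h6 : c • B Φ l i j = -(d • E Φ l j) := eq_neg_of_add_eq_zero_left h5
          calc (-(c⁻¹ * d)) • E Φ l j = c⁻¹ • (c • B Φ l i j) := by rw [h6, smul_neg, smul_smul, neg_smul]
            _ = _ := by rw [smul_smul, inv_mul_cancel₀ hc, one_smul]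
        rw [hc, zero_smul, zero_add, smul_eq_zero] at h5
        exact ⟨hc, h5.resolve_right (hE j)⟩
    · refine ind2 (x := E Φ l i) (y := E Φ l j) (fun c d h5 => ?_) (by linarith)
      have hc : c = 0 := by
        by_contra hc
        apply h1
        rw [Submodule.mem_span_singleton]
        refine ⟨-(c⁻¹ * d), ?_⟩
        have h6 : c • E Φ l i = -(d • E Φ l j) := eq_neg_of_add_eq_zero_left h5
        calc (-(c⁻¹ * d)) • E Φ l j = c⁻¹ • (c • E Φ l i) := by rw [h6, smul_neg, smul_smul, neg_smul]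
          _ = _ := by rw [smul_smul, inv_mul_cancel₀ hc, one_smul]
      rw [hc, zero_smul, zero_add, smul_eq_zero] at h5
      exact ⟨hc, h5.resolve_right (hE j)⟩
  have two : ∀ (i j i' j' : Fin q), i ≠ j → i' ≠ j' → (∀ k, k ≠ i → k ≠ j → a k = 0) →
      (∀ k, k ≠ i' → k ≠ j' → b k = 0) → Ind K s (Tot Φ l s / 2) := by
    intro i j i' j' hij hij' ha hb
    have hT : Tot Φ l s = (a i + a j) + (b i' + b j') := by
      unfold Tot
      simp only [hp.sq, Finset.sum_add_distrib]
      have sum2 : ∀ (c : Fin q → ℝ) (i j : Fin q), i ≠ j → (∀ k, k ≠ i → k ≠ j → c k = 0) →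
          ∑ k, c k = c i + c j := by
        intro c i j hij hc
        rw [← Finset.sum_subset (Finset.subset_univ {i, j}) fun k _ hk => by
          simp only [Finset.mem_insert, Finset.mem_singleton, not_or] at hk
          exact hc k hk.1 hk.2, Finset.sum_insert (by simpa using hij), Finset.sum_singleton]
      rw [sum2 a i j hij ha, sum2 b i' j' hij' hb]
    have hA : Ind K s (a i + a j) := by
      refine key i j (a i) (a j) hij ?_ ?_ fun h0 => le_trans ?_ (hp.mul i j hij h0)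
      · rw [hp.sq]
        linarith [hp.b0 i]
      · rw [hp.sq]
        linarith [hp.b0 j]
      · exact min_le_min (by linarith [hp.b0 j]) (by linarith [hp.b0 i])
    have hB : Ind K s (b i' + b j') := by
      refine key i' j' (b i') (b j') hij' ?_ ?_ fun h0 => le_trans ?_ (hp.mul i' j' hij' h0)
      · rw [hp.sq]
        linarith [hp.a0 i']
      · rw [hp.sq]
        linarith [hp.a0 j']
      · rw [min_comm]
        exact min_le_min (by linarith [hp.a0 i']) (by linarith [hp.a0 j'])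
    rcases le_total (a i + a j) (b i' + b j') with h1 | h1
    · exact hB.mono (by rw [hT]; linarith)
    · exact hA.mono (by rw [hT]; linarith)
  rcases types l Φ s a b hp hq with ⟨i, j, i', j', hn, ha, hb, -, -⟩ | ⟨i, j, k, hn, ha, hb⟩ | ⟨i, j, hn, ha, hb⟩
  · simp only [List.nodup_cons, List.mem_cons, List.not_mem_nil, or_false, not_or] at hn
    exact two i j i' j' hn.1.1 hn.2.2.1 ha hb
  · simp only [List.nodup_cons, List.mem_cons, List.not_mem_nil, or_false, not_or] at hn
    exact two i j i k hn.1.1 hn.1.2 ha hb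
  · exact two i j i j hn hn ha hb

end

end Pool.Agent.QP
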